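import Pool.Agent.Helper14.BSC.Stmts2

/-!
# BSC: module ONE
-/

set_option autoImplicit false

namespace Pool.Agent.Helper14.BSC

open Polynomial

section

variable {k Ω : Type} [Field k] [Field Ω] [Algebra k Ω]

theorem one_phi_sub {D : Sec k Ω} {p : ℕ} [Fact p.Prime] {σ : k →+* ℂ_[p]} (P : Place D p σ)
    (g : LL D) (hg : g ∈ P.C) (a : k) : ∃ h : g - algebraMap k (LL D) a ∈ P.C,
      P.φ ⟨_, h⟩ = P.φ ⟨g, hg⟩ - σ a := by
  obtain ⟨ha, h1⟩ := P.base a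
  refine ⟨sub_mem hg ha, ?_⟩
  have e : (⟨g - algebraMap k (LL D) a, sub_mem hg ha⟩ : P.C) =
      ⟨g, hg⟩ - ⟨algebraMap k (LL D) a, ha⟩ := rfl
  rw [e, map_sub, h1]

theorem one_shift {D : Sec k Ω} {g : LL D} {H : Polynomial k} (h : RootAll D g H) (a : k) :
    RootAll D (g - algebraMap k (LL D) a) (H.comp (X + C a)) := by
  intro p _ σ hσ P
  obtain ⟨hg, h0⟩ := h p σ hσ P
  obtain ⟨h1, h2⟩ := one_phi_sub P g hg a
  refine ⟨h1, ?_⟩
  rw [h2, Polynomial.map_comp, Polynomial.eval_comp]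
  simp only [Polynomial.map_add, Polynomial.map_X, Polynomial.map_C, Polynomial.eval_add,
    Polynomial.eval_X, Polynomial.eval_C, sub_add_cancel]
  exact h0

theorem one_inv {D : Sec k Ω} {x : LL D} (hx : ∀ c : k, x ≠ algebraMap k (LL D) c) (b c : k) :
    (x - algebraMap k (LL D) b)⁻¹ ≠ algebraMap k (LL D) c := by
  intro h
  apply hx (b + c⁻¹)
  have h1 : x - algebraMap k (LL D) b = algebraMap k (LL D) c⁻¹ := by
    rw [map_inv₀, ← h, inv_inv]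
  rw [map_add, ← h1]
  ring

theorem one_val {D : Sec k Ω} {p : ℕ} [Fact p.Prime] {σ : k →+* ℂ_[p]} (P : Place D p σ)
    {x : LL D} (hx : ∀ c : k, x ≠ algebraMap k (LL D) c) (b c : k)
    (h : AtVal P (x - algebraMap k (LL D) b)⁻¹ (some c)) : ∃ z : Option k, AtVal P x z := by
  obtain ⟨hg, h1⟩ := h
  set g : LL D := (x - algebraMap k (LL D) b)⁻¹ with hgdef
  have hg0 : g ≠ 0 := by
    have := one_inv hx b 0
    rwa [map_zero] at this
  have hker := P.ker ⟨g, hg⟩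
  have hginv : g⁻¹ = x - algebraMap k (LL D) b := by rw [hgdef, inv_inv]
  rcases eq_or_ne c 0 with rfl | hc
  · rw [map_zero] at h1
    rcases hker.1 h1 with h2 | h2
    · exact absurd h2 hg0
    · refine ⟨none, fun h3 => h2 ?_⟩
      change g⁻¹ ∈ P.C
      rw [hginv]
      exact sub_mem h3 (P.base b).1
  · have h2 : P.φ ⟨g, hg⟩ ≠ 0 := by
      rw [h1]
      exact fun h => hc ((map_eq_zero σ).1 h)
    have h3 : g⁻¹ ∈ P.C := by
      by_contra h4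
      exact h2 (hker.2 (Or.inr h4))
    have h4 : P.φ ⟨g⁻¹, h3⟩ = σ c⁻¹ := by
      have h5 : (⟨g⁻¹, h3⟩ : P.C) * ⟨g, hg⟩ = 1 := Subtype.ext (inv_mul_cancel₀ hg0)
      have h6 := congrArg P.φ h5
      rw [map_mul, h1, map_one] at h6
      rw [map_inv₀]
      exact eq_inv_of_mul_eq_one_left h6
    obtain ⟨hb, hb1⟩ := P.base b
    have h7 : x ∈ P.C := by
      have h8 : x = g⁻¹ + algebraMap k (LL D) b := by rw [hginv]; ring
      rw [h8]
      exact add_mem h3 hb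
    refine ⟨some (c⁻¹ + b), h7, ?_⟩
    have h9 : (⟨x, h7⟩ : P.C) = ⟨g⁻¹, h3⟩ + ⟨algebraMap k (LL D) b, hb⟩ := by
      refine Subtype.ext ?_
      change x = g⁻¹ + algebraMap k (LL D) b
      rw [hginv]
      ring
    rw [h9, map_add, h4, hb1, map_add]

end

theorem st_ONE (hFIN : ST_FIN) (hZER : ST_ZER) (hDEP : ST_DEP) (hLZG : ST_LZG) (hEMB : ST_EMB)
    (hTSX : ST_TSX) (hRK : ST_RK) (hONE4 : ST_ONE4) (hMOB1 : ST_MOB1) : ST_ONE := by
  intro k Ω _ _ _ _ _ D k₁ _ _ _ hfg f hf hdep A hA hNR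
  obtain ⟨F₀, hF₀, hRF₀⟩ := hFIN k Ω D k₁ f hf A hA hNR
  obtain ⟨b₀, H₀, hH₀, hRA₀⟩ := hZER k Ω D f F₀ hf hF₀ hRF₀
  obtain ⟨F, iF, cF, aF, fdF, fgF, lzF⟩ := hLZG k hfg
  have : Fact (Nat.Prime 2) := ⟨Nat.prime_two⟩
  obtain ⟨j, E, hE, hjE⟩ := hEMB F fgF 2
  obtain ⟨T, hTj, -, hT1⟩ := hTSX k F 2 j E hE hjE
  have hP : ∀ i, ∃ P : Place D 2 (T.σ i), True := by
    intro i
    obtain ⟨E₁, hE₁, hσ, -⟩ := hT1 i
    obtain ⟨P, -⟩ := hRK k Ω D 2 (T.σ i) E₁ hE₁ hσ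
    exact ⟨P, trivial⟩
  choose P _ using hP
  refine ⟨2, ⟨Nat.prime_two⟩, T.σ ⟨0, T.pos⟩, P ⟨0, T.pos⟩, ?_⟩
  intro x
  by_cases hx : ∀ c : k, x ≠ algebraMap k (LL D) c
  · obtain ⟨Fx, hFx, hRFx⟩ := hDEP k Ω D (f - algebraMap k (LL D) b₀)⁻¹ x H₀
      (fun c => one_inv hf b₀ c) hH₀ hRA₀ hdep
    obtain ⟨b, H, hH, hRA⟩ := hZER k Ω D x Fx hx hFx hRFx
    have hfin : {a : k | ¬ NR D F ((x - algebraMap k (LL D) b)⁻¹ -
        algebraMap k (LL D) a)}.Finite := by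
      refine (Polynomial.finite_setOfPred_isRoot hH).subset ?_
      intro a ha
      by_contra hroot
      refine ha (hONE4 k Ω D F hfg lzF _ (H.comp (X + C a)) ?_ (one_shift hRA a))
      rw [Polynomial.eval_comp]
      simp only [Polynomial.eval_add, Polynomial.eval_X, Polynomial.eval_C, zero_add]
      exact hroot
    obtain ⟨z, hz⟩ := hMOB1 k Ω D F 2 T P _ (fun c => one_inv hx b c) hfin
    have hz0 := hz ⟨0, T.pos⟩
    obtain ⟨hgC, -⟩ := hRA 2 (T.σ ⟨0, T.pos⟩) (by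
      obtain ⟨E', hE', h'⟩ := T.fin
      exact ⟨E', hE', h' _⟩) (P ⟨0, T.pos⟩)
    cases z with
    | none => exact absurd hgC hz0
    | some c => exact one_val _ hx b c hz0
  · push Not at hx
    obtain ⟨c, hc⟩ := hx
    obtain ⟨h1, h2⟩ := (P ⟨0, T.pos⟩).base c
    refine ⟨some c, ?_⟩
    rw [hc]
    exact ⟨h1, h2⟩

end Pool.Agent.Helper14.BSC
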