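import Pool.Agent.Helper14.BSC.Stmts

/-!
# BSC: module LIM
-/

set_option autoImplicit false

namespace Pool.Agent.Helper14.BSC

theorem lim_choose (p : ℕ) [Fact p.Prime] (i : ℕ) (h1 : 0 < i) (h2 : i < p) :
    ‖((p.choose i : ℕ) : ℂ_[p])‖ ≤ 1 / p := by
  obtain ⟨c, hc⟩ := (Fact.out : p.Prime).dvd_choose_self h1.ne' h2
  rw [hc]
  push_cast
  rw [norm_mul]
  have hp : ‖(p : ℂ_[p])‖ = 1 / p := by
    have := PadicComplex.norm_extends' p (p : ℚ_[p])
    rw [Padic.norm_p] at this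
    rw [one_div, ← this]
    simp
  have hc1 : ‖(c : ℂ_[p])‖ ≤ 1 := IsUltrametricDist.norm_natCast_le_one _ _
  rw [hp]
  have : (0 : ℝ) ≤ 1 / p := by positivity
  nlinarith

theorem lim_step (p : ℕ) [Fact p.Prime] (s : ℝ) (hs1 : 1 / (p : ℝ) ≤ s) (hs0 : 0 ≤ s) (u : ℂ_[p])
    (hu : ‖u‖ ≤ s) (hu1 : ‖u‖ ≤ 1) : ‖(1 + u) ^ p - 1‖ ≤ s * ‖u‖ := by
  have hp2 : 2 ≤ p := (Fact.out : p.Prime).two_le
  have e : (1 + u) ^ p - 1 = ∑ i ∈ Finset.range p, u ^ (i + 1) * ((p.choose (i + 1) : ℕ) : ℂ_[p]) := by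
    rw [add_comm, add_pow, Finset.sum_range_succ']
    simp
  rw [e]
  refine IsUltrametricDist.norm_sum_le_of_forall_le_of_nonneg (by positivity) ?_
  intro i hi
  have hi := Finset.mem_range.1 hi
  rw [norm_mul, norm_pow]
  rcases Nat.lt_or_ge (i + 1) p with h | h
  · have h1 := lim_choose p (i + 1) (by omega) h
    have h2 : ‖u‖ ^ (i + 1) ≤ ‖u‖ := by
      rw [pow_succ]
      exact mul_le_of_le_one_left (norm_nonneg _) (pow_le_one₀ (norm_nonneg _) hu1)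
    calc ‖u‖ ^ (i + 1) * _ ≤ ‖u‖ * s := by
          refine mul_le_mul h2 (h1.trans hs1) (norm_nonneg _) (norm_nonneg _)
      _ = s * ‖u‖ := mul_comm _ _
  · have h3 : i + 1 = p := by omega
    rw [h3, Nat.choose_self]
    simp only [Nat.cast_one, norm_one, mul_one]
    have : ‖u‖ ^ p = ‖u‖ ^ (p - 2) * ‖u‖ * ‖u‖ := by
      rw [mul_assoc, ← pow_two, ← pow_add]
      congr 1
      omega
    rw [this]
    refine mul_le_mul_of_nonneg_right ?_ (norm_nonneg _)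
    exact (mul_le_of_le_one_left (norm_nonneg _) (pow_le_one₀ (norm_nonneg _) hu1)).trans hu

theorem lim_iter (p : ℕ) [Fact p.Prime] (s : ℝ) (hs1 : 1 / (p : ℝ) ≤ s) (hs0 : 0 ≤ s) (hs : s < 1)
    (u : ℂ_[p]) (hu : ‖u‖ ≤ s) (m : ℕ) : ‖(1 + u) ^ p ^ m - 1‖ ≤ s ^ (m + 1) := by
  induction m with
  | zero => simpa using hu
  | succ m ih =>
    have h1 : s ^ (m + 1) ≤ s := by
      rw [pow_succ]
      exact mul_le_of_le_one_left hs0 (pow_le_one₀ hs0 hs.le)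
    have h2 := lim_step p s hs1 hs0 ((1 + u) ^ p ^ m - 1) (ih.trans h1)
      ((ih.trans h1).trans hs.le)
    rw [add_sub_cancel, ← pow_mul, ← pow_succ] at h2
    refine h2.trans ?_
    rw [pow_succ s (m + 1), mul_comm]
    exact mul_le_mul_of_nonneg_right ih hs0

theorem st_LIM (hEFIN : ST_EFIN) : ST_LIM := by
  intro p _ E hE ρ hρ hlim
  obtain ⟨e, N, he, hN, hEN⟩ := hEFIN p E hE
  have hp1 : (1 : ℝ) < p := by exact_mod_cast (Fact.out : p.Prime).one_lt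
  have hp0 : (0 : ℝ) < p := by linarith
  -- approximations have the right norm
  have happ : ∀ n : ℕ, 0 < n → ∀ δ : ℝ, 0 < δ → ∃ W ∈ E, W ≠ 0 ∧ ‖W‖ ^ n = ‖ρ‖ ∧ ‖W ^ n - ρ‖ < δ := by
    intro n hn δ hδ
    obtain ⟨W, hW, h1⟩ := hlim n hn (min δ ‖ρ‖) (lt_min hδ (norm_pos_iff.2 hρ))
    have h2 : ‖W ^ n‖ = ‖ρ‖ := by
      have h3 : ‖W ^ n - ρ‖ < ‖ρ‖ := h1.trans_le (min_le_right _ _)
      have h4 := IsUltrametricDist.norm_add_eq_max_of_norm_ne_norm (x := W ^ n - ρ) (y := ρ) h3.ne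
      rw [sub_add_cancel, max_eq_right h3.le] at h4
      exact h4
    refine ⟨W, hW, ?_, by rw [← norm_pow, h2], h1.trans_le (min_le_left _ _)⟩
    rintro rfl
    rw [zero_pow hn.ne', norm_zero] at h2
    exact hρ (norm_eq_zero.1 h2.symm)
  -- the norm of `ρ` is `1`
  have hval : ∀ n : ℕ, 0 < n → ∃ j : ℤ, ‖ρ‖ ^ e = (p : ℝ) ^ (j * n) := by
    intro n hn
    obtain ⟨W, hW, h0, h1, -⟩ := happ n hn 1 one_pos
    obtain ⟨j, hj⟩ := (hEN W hW h0).1
    refine ⟨j, ?_⟩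
    rw [← h1, ← pow_mul, mul_comm, pow_mul, hj, zpow_mul]
    rfl
  have hρ1 : ‖ρ‖ = 1 := by
    obtain ⟨j, hj⟩ := hval 1 one_pos
    obtain ⟨i, hi⟩ := hval (j.natAbs + 1) (by omega)
    rw [hj] at hi
    have h1 : j * (1 : ℕ) = i * ((j.natAbs + 1 : ℕ) : ℤ) :=
      zpow_right_injective₀ hp0 hp1.ne' hi
    have h2 : j = 0 := by
      by_contra hj0
      have h3 : (((j.natAbs + 1 : ℕ) : ℤ)) ∣ j := ⟨i, by rw [← mul_comm i, ← h1]; simp⟩
      have h4 := Int.natAbs_dvd_natAbs.2 h3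
      have h5 := Nat.le_of_dvd (Int.natAbs_pos.2 hj0) h4
      simp only [Int.natAbs_natCast] at h5
      omega
    rw [h2, zero_mul, zpow_zero] at hj
    exact (pow_eq_one_iff_of_nonneg (norm_nonneg _) he.ne').1 hj
  -- uniform bound
  obtain ⟨s, hs0, hs1, hsp, hsu⟩ : ∃ s : ℝ, 0 ≤ s ∧ s < 1 ∧ 1 / (p : ℝ) ≤ s ∧
      ∀ w ∈ E, ‖w‖ < 1 → ‖w‖ ≤ s := by
    refine ⟨(1 / (p : ℝ)) ^ ((1 : ℝ) / e), by positivity, ?_, ?_, ?_⟩
    · refine Real.rpow_lt_one (by positivity) ?_ (by positivity)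
      rw [div_lt_one hp0]
      exact hp1
    · have h1 : (1 : ℝ) / e ≤ 1 := by
        rw [div_le_one (by exact_mod_cast he)]
        exact_mod_cast he
      have h2 := Real.rpow_le_rpow_of_exponent_ge (x := 1 / (p : ℝ)) (by positivity)
        (by rw [div_le_one hp0]; exact hp1.le) h1
      simpa using h2
    · intro w hw hw1
      rcases eq_or_ne w 0 with rfl | hw0
      · rw [norm_zero]
        positivity
      obtain ⟨j, hj⟩ := (hEN w hw hw0).1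
      have h1 : (p : ℝ) ^ j < 1 := by
        rw [← hj]
        exact pow_lt_one₀ (norm_nonneg _) hw1 he.ne'
      have h2 : j ≤ -1 := by
        by_contra hc
        have h3 : (1 : ℝ) ≤ (p : ℝ) ^ j := one_le_zpow₀ hp1.le (by omega)
        linarith
      have h4 : ‖w‖ ^ e ≤ 1 / p := by
        rw [hj, one_div, ← zpow_neg_one]
        exact zpow_le_zpow_right₀ hp1.le h2
      have h5 : ‖w‖ = (‖w‖ ^ e) ^ ((1 : ℝ) / e) := by
        rw [← Real.rpow_natCast, ← Real.rpow_mul (norm_nonneg _)]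
        rw [mul_one_div_cancel (by exact_mod_cast he.ne'), Real.rpow_one]
      rw [h5]
      exact Real.rpow_le_rpow (by positivity) h4 (by positivity)
  -- conclusion
  have hle : ∀ m : ℕ, ‖ρ - 1‖ ≤ s ^ (m + 1) := by
    intro m
    refine le_of_forall_pos_le_add fun δ hδ => ?_
    obtain ⟨W, hW, h0, h1, h2⟩ := happ (N * p ^ m) (by
      have := (Fact.out : p.Prime).pos
      positivity) δ hδ
    have h3 : ‖W‖ = 1 := by
      rw [hρ1] at h1
      exact (pow_eq_one_iff_of_nonneg (norm_nonneg _) (by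
        have := (Fact.out : p.Prime).pos
        positivity)).1 h1
    have h4 := (hEN W hW h0).2 h3
    have h5 : ‖W ^ N - 1‖ ≤ s := hsu _ (E.sub_mem (pow_mem hW N) E.one_mem) h4
    have h6 := lim_iter p s hsp hs0 hs1 (W ^ N - 1) h5 m
    rw [add_sub_cancel, ← pow_mul] at h6
    have e1 : ρ - 1 = (W ^ (N * p ^ m) - 1) - (W ^ (N * p ^ m) - ρ) := by ring
    rw [e1]
    refine (norm_sub_le _ _).trans (add_le_add h6 h2.le)
  have hz : ‖ρ - 1‖ ≤ 0 := by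
    have ht : Filter.Tendsto (fun m : ℕ => s ^ (m + 1)) Filter.atTop (nhds 0) :=
      (tendsto_pow_atTop_nhds_zero_of_lt_one hs0 hs1).comp (Filter.tendsto_add_atTop_nat 1)
    exact ge_of_tendsto' ht hle
  exact sub_eq_zero.1 (norm_le_zero_iff.1 hz)

end Pool.Agent.Helper14.BSC
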